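import Pool.Agent.Helper16.AZ.Stmts

open Finset

namespace Pool.Agent.Helper49.AZ

open Pool.Agent.Helper16.AZ
open Pool.Agent.Helper16.MD (PB)

theorem CNT_res : ST_CNT := by
  intro r i m Z hZ S hS hY
  obtain ⟨j, hj⟩ : ∃ j, Z j ≠ 0 := by
    by_contra h
    push Not at h
    exact hZ (funext h)
  rcases S.eq_empty_or_nonempty with rfl | ⟨p, hp⟩
  · simp
  have hPB : ∀ q ∈ S, 2 ^ i < q ∧ q ≤ 2 ^ (i + 1) ∧ q.Prime := by
    intro q hq
    have := hS hq
    simp only [PB, mem_filter, mem_Ioc] at this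
    exact ⟨this.1.1, this.1.2, this.2.1⟩
  have hdvd : ∏ q ∈ S, q ∣ (Z j).natAbs := by
    refine Finset.prod_primes_dvd _ (fun q hq => (hPB q hq).2.2.prime) ?_
    intro q hq
    obtain ⟨Y, hY1, -⟩ := hY q hq
    rw [hY1]
    simp only [Pi.smul_apply, smul_eq_mul, Int.natAbs_mul, Int.natAbs_natCast]
    exact dvd_mul_right _ _
  have hpos : 0 < (Z j).natAbs := Int.natAbs_pos.2 hj
  have h1 : 2 ^ (i * S.card) ≤ (Z j).natAbs := by
    refine le_trans ?_ (Nat.le_of_dvd hpos hdvd)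
    rw [pow_mul, ← Finset.prod_const]
    exact Finset.prod_le_prod' (fun q hq => (hPB q hq).1.le)
  have h2 : (Z j).natAbs ≤ 2 ^ (i + 1 + m) := by
    obtain ⟨Y, hY1, hY2⟩ := hY p hp
    rw [hY1]
    simp only [Pi.smul_apply, smul_eq_mul, Int.natAbs_mul, Int.natAbs_natCast]
    rw [pow_add]
    refine Nat.mul_le_mul (hPB p hp).2.1 ?_
    have := hY2 j
    have h3 : ((Y j).natAbs : ℤ) ≤ ((2 ^ m : ℕ) : ℤ) := by rw [Int.natCast_natAbs]; exact this
    exact_mod_cast h3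
  exact (Nat.pow_le_pow_iff_right (by norm_num)).1 (h1.trans h2)

end Pool.Agent.Helper49.AZ
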